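import Mathlib

/-!
# A diagonal infinite-order hyperbolicity preserver which is not monotone

The operator `T[p] = 3 p(0) + 5 p'(0) x + p''(0) (2 x ^ 2 - 1)` is diagonal with respect to the
basis `1, x, x ^ 2 - 2, x ^ 3, x ^ 4, …`, whose members are the eigenvectors of `x ^ 3 D ^ 3`.  It
preserves hyperbolicity (by Laguerre's inequality), has infinite order and is not monotone.
-/

set_option autoImplicit false

open Polynomial Finset

namespace Pool.Agent.Results.MP_f79668_an.DiagonalNonMonotone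

/-- A real polynomial is hyperbolic if it is zero or all its complex zeros are real. -/
def Hyperbolic (p : ℝ[X]) : Prop := p = 0 ∨ ∀ z : ℂ, aeval z p = 0 → z.im = 0

/-- `T` is represented by the formal series `∑ Q_k(x) D^k`, where `D` is differentiation. -/
def IsSeries (T : ℝ[X] →ₗ[ℝ] ℝ[X]) (Q : ℕ → ℝ[X]) : Prop :=
  ∀ p : ℝ[X], T p = ∑ k ∈ range (p.natDegree + 1), Q k * derivative^[k] p

/-- `∑ Q_k D^k` is monotone if `deg Q_k ≤ deg Q_{k+1}` whenever `Q_k ≠ 0` (and `deg 0 = ⊥`). -/
def IsMonotone (Q : ℕ → ℝ[X]) : Prop := ∀ k : ℕ, Q k ≠ 0 → (Q k).degree ≤ (Q (k + 1)).degree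

/-- admissible bases: `deg B_k = k`, and every `B_k` solves
`a₀(k) y + ∑_{j=1}^M a_j(x) y^{(j)} = 0`, with polynomials `a_1, …, a_M` independent of `k` and
`a_M ≠ 0` -/
def Admissible (B : ℕ → ℝ[X]) : Prop :=
  (∀ k : ℕ, (B k).degree = k) ∧
    ∃ (M : ℕ) (a : ℕ → ℝ[X]) (a₀ : ℕ → ℝ), 1 ≤ M ∧ a M ≠ 0 ∧
      ∀ k : ℕ, C (a₀ k) * B k + ∑ j ∈ Icc 1 M, a j * derivative^[j] (B k) = 0

lemma sum_stable (Q : ℕ → ℝ[X]) (p : ℝ[X]) {N : ℕ} (hN : p.natDegree ≤ N) :
    ∑ k ∈ range (p.natDegree + 1), Q k * derivative^[k] p =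
      ∑ k ∈ range (N + 1), Q k * derivative^[k] p := by
  apply sum_subset
  · intro k hk
    simp only [mem_range] at hk ⊢
    omega
  · intro k _ hk
    simp only [mem_range, not_lt] at hk
    rw [iterate_derivative_eq_zero (by omega), mul_zero]

/-- `(-x)^m / m!` -/
noncomputable def e (m : ℕ) : ℝ[X] := C ((-1) ^ m / (m.factorial : ℝ)) * X ^ m

/-- evaluation at `0` as a differential operator of infinite order -/
lemma eval_zero_series (q : ℝ[X]) {N : ℕ} (hN : q.natDegree ≤ N) :
    C (q.coeff 0) = ∑ m ∈ range (N + 1), e m * derivative^[m] q := by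
  ext n
  rw [coeff_C, finsetSum_coeff]
  have h1 : ∀ m : ℕ, (e m * derivative^[m] q).coeff n =
      (-1) ^ m * (n.choose m : ℝ) * q.coeff n := by
    intro m
    unfold e
    rw [mul_assoc, coeff_C_mul, coeff_X_pow_mul']
    split_ifs with h
    · rw [coeff_iterate_derivative, Nat.sub_add_cancel h, nsmul_eq_mul,
        Nat.descFactorial_eq_factorial_mul_choose]
      push_cast
      have : (m.factorial : ℝ) ≠ 0 := by exact_mod_cast Nat.factorial_ne_zero m
      field_simp
    · rw [Nat.choose_eq_zero_of_lt (by omega)]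
      simp
  rw [sum_congr rfl fun m _ => h1 m, ← sum_mul]
  by_cases hn : n ≤ N
  · have h2 : ∑ m ∈ range (N + 1), (-1 : ℝ) ^ m * (n.choose m : ℝ) =
        ∑ m ∈ range (n + 1), (-1 : ℝ) ^ m * (n.choose m : ℝ) := by
      symm
      apply sum_subset
      · intro k hk
        simp only [mem_range] at hk ⊢
        omega
      · intro k _ hk
        simp only [mem_range, not_lt] at hk
        rw [Nat.choose_eq_zero_of_lt (by omega)]
        simp
    have h3 : ∑ m ∈ range (n + 1), (-1 : ℝ) ^ m * (n.choose m : ℝ) = if n = 0 then 1 else 0 := by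
      have := Int.alternating_sum_range_choose (n := n)
      exact_mod_cast this
    rw [h2, h3]
    split_ifs with h
    · rw [one_mul, h]
    · rw [zero_mul]
  · have hq : q.coeff n = 0 := coeff_eq_zero_of_natDegree_lt (by omega)
    rw [hq, mul_zero, if_neg (by omega)]

/-- `T[p] = 3 p(0) + 5 p'(0) x + p''(0) (2 x ^ 2 - 1)`, written with the coefficients of `p` -/
noncomputable def T : ℝ[X] →ₗ[ℝ] ℝ[X] where
  toFun p := C (p.coeff 0) * 3 + C (p.coeff 1) * (5 * X) + C (2 * p.coeff 2) * (2 * X ^ 2 - 1)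
  map_add' p q := by
    simp only [coeff_add, map_add, mul_add]
    ring
  map_smul' a p := by
    simp only [coeff_smul, smul_eq_mul]
    simp only [map_mul, RingHom.id_apply, smul_eq_C_mul]
    ring

lemma T_apply (p : ℝ[X]) :
    T p = C (p.coeff 0) * 3 + C (p.coeff 1) * (5 * X) + C (2 * p.coeff 2) * (2 * X ^ 2 - 1) := rfl

/-- the coefficients of `T` -/
noncomputable def Q (k : ℕ) : ℝ[X] :=
  3 * e k + (if k < 1 then 0 else 5 * X * e (k - 1)) +
    (if k < 2 then 0 else (2 * X ^ 2 - 1) * e (k - 2))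

lemma isSeries : IsSeries T Q := by
  intro p
  have h0 := eval_zero_series p (N := p.natDegree + 2) (by omega)
  have h1 := eval_zero_series (derivative p) (N := p.natDegree + 1)
    (le_trans (natDegree_derivative_le p) (by omega))
  have h2 := eval_zero_series (derivative^[2] p) (N := p.natDegree)
    (le_trans (natDegree_iterate_derivative p 2) (by omega))
  have hc1 : (derivative p).coeff 0 = p.coeff 1 := by simp [coeff_derivative]
  have hc2 : (derivative^[2] p).coeff 0 = 2 * p.coeff 2 := by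
    rw [coeff_iterate_derivative]
    simp [Nat.descFactorial]
  rw [hc1] at h1
  rw [hc2] at h2
  rw [sum_stable Q p (N := p.natDegree + 2) (by omega), T_apply, h0, h1, h2]
  unfold Q
  simp only [add_mul, sum_add_distrib]
  congr 1
  · congr 1
    · rw [sum_mul]
      refine sum_congr rfl fun k _ => ?_
      ring
    · rw [sum_range_succ' _ (p.natDegree + 2)]
      simp only [zero_lt_one, if_true, zero_mul, add_zero, Nat.add_sub_cancel]
      rw [sum_mul]
      refine sum_congr rfl fun k _ => ?_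
      rw [if_neg (by omega), ← Function.iterate_succ_apply]
      ring
  · rw [sum_range_succ' _ (p.natDegree + 2), sum_range_succ' _ (p.natDegree + 1)]
    rw [if_pos (by norm_num), if_pos (by norm_num), zero_mul, zero_mul, add_zero, add_zero,
      sum_mul]
    refine sum_congr rfl fun k _ => ?_
    rw [if_neg (by omega), show k + 1 + 1 - 2 = k by omega, show k + 1 + 1 = k + 2 by omega,
      Function.iterate_add_apply]
    ring

/-! ### Hyperbolicity -/

/-- the Laguerre inequality at `0` -/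
lemma laguerre (s : Multiset ℝ) :
    2 * ((s.map fun r => X - C r).prod).coeff 0 * ((s.map fun r => X - C r).prod).coeff 2 ≤
      ((s.map fun r => X - C r).prod).coeff 1 ^ 2 := by
  induction s using Multiset.induction_on with
  | empty => simp [coeff_one]
  | cons a s ih =>
    rw [Multiset.map_cons, Multiset.prod_cons]
    set q := (s.map fun r => X - C r).prod
    have h0 : ((X - C a) * q).coeff 0 = - a * q.coeff 0 := by
      simp [sub_mul]
    have h1 : ((X - C a) * q).coeff 1 = q.coeff 0 - a * q.coeff 1 := by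
      rw [sub_mul, coeff_sub, coeff_C_mul, coeff_X_mul]
    have h2 : ((X - C a) * q).coeff 2 = q.coeff 1 - a * q.coeff 2 := by
      rw [sub_mul, coeff_sub, coeff_C_mul, coeff_X_mul]
    rw [h0, h1, h2]
    nlinarith [sq_nonneg (q.coeff 0), mul_nonneg (sq_nonneg a) (sub_nonneg.2 ih)]

/-- a nonzero hyperbolic polynomial is a product of real linear factors -/
lemma factor {p : ℝ[X]} (hp0 : p ≠ 0) (hp : ∀ z : ℂ, aeval z p = 0 → z.im = 0) :
    ∃ s : Multiset ℝ, p = C p.leadingCoeff * (s.map fun r => X - C r).prod := by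
  set P : ℂ[X] := p.map (algebraMap ℝ ℂ) with hP
  have hP0 : P ≠ 0 := Polynomial.map_ne_zero hp0
  have hroots : ∀ r ∈ P.roots, r.im = 0 := by
    intro r hr
    apply hp
    have := (mem_roots hP0).1 hr
    rw [IsRoot.def, hP, eval_map_algebraMap] at this
    exact this
  refine ⟨P.roots.map Complex.re, ?_⟩
  apply Polynomial.map_injective (algebraMap ℝ ℂ) (algebraMap ℝ ℂ).injective
  rw [Polynomial.map_mul, map_C, Polynomial.map_multiset_prod, Multiset.map_map, Multiset.map_map]
  have h1 := (IsAlgClosed.splits P).eq_prod_roots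
  rw [hP, leadingCoeff_map, ← hP] at h1
  refine h1.trans ?_
  congr 2
  apply Multiset.map_congr rfl
  intro r hr
  simp only [Function.comp_apply, Polynomial.map_sub, map_X, map_C, Complex.coe_algebraMap]
  congr 2
  exact Complex.ext (by simp) (by simp [hroots r hr])

lemma newton {p : ℝ[X]} (hp0 : p ≠ 0) (hp : ∀ z : ℂ, aeval z p = 0 → z.im = 0) :
    2 * p.coeff 0 * p.coeff 2 ≤ p.coeff 1 ^ 2 := by
  obtain ⟨s, hs⟩ := factor hp0 hp
  have h := laguerre s
  rw [hs, coeff_C_mul, coeff_C_mul, coeff_C_mul]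
  nlinarith [mul_nonneg (sq_nonneg p.leadingCoeff) (sub_nonneg.2 h)]

lemma preserves (p : ℝ[X]) (hp : Hyperbolic p) : Hyperbolic (T p) := by
  by_cases hT : T p = 0
  · exact Or.inl hT
  by_cases hp0 : p = 0
  · left
    rw [hp0, map_zero]
  have hp' : ∀ z : ℂ, aeval z p = 0 → z.im = 0 := hp.resolve_left hp0
  have hN := newton hp0 hp'
  right
  intro z hz
  by_contra him
  apply hT
  set a := p.coeff 0
  set b := p.coeff 1
  set d := p.coeff 2
  have hT' : T p = C (4 * d) * X ^ 2 + C (5 * b) * X + C (3 * a - 2 * d) := by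
    rw [T_apply]
    simp only [map_mul, map_sub, map_ofNat]
    ring
  rw [hT'] at hz ⊢
  simp only [map_add, map_mul, map_pow, aeval_X, aeval_C, Complex.coe_algebraMap] at hz
  have hre := congrArg Complex.re hz
  have hi := congrArg Complex.im hz
  simp only [Complex.add_re, Complex.add_im, Complex.mul_re, Complex.mul_im, Complex.ofReal_re,
    Complex.ofReal_im, pow_two, Complex.zero_re, Complex.zero_im] at hre hi
  have h1 : 2 * (4 * d) * z.re + 5 * b = 0 := by
    have : z.im * (2 * (4 * d) * z.re + 5 * b) = 0 := by linear_combination hi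
    exact (mul_eq_zero.1 this).resolve_left him
  have h2 : 4 * d * (z.re * z.re - z.im * z.im) + 5 * b * z.re + (3 * a - 2 * d) = 0 := by
    linear_combination hre
  have h3 : (5 * b) ^ 2 - 4 * (4 * d) * (3 * a - 2 * d) = -(2 * (4 * d) * z.im) ^ 2 := by
    linear_combination (5 * b - 2 * (4 * d) * z.re) * h1 - 4 * (4 * d) * h2 +
      2 * (2 * (4 * d) * z.re) * h1
  have h4 : d * z.im = 0 := by nlinarith [sq_nonneg b, sq_nonneg d, sq_nonneg (d * z.im)]
  have hd : d = 0 := (mul_eq_zero.1 h4).resolve_right him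
  have hb : b = 0 := by rw [hd] at h1; linarith
  have ha : a = 0 := by rw [hd, hb] at h2; linarith
  rw [ha, hb, hd]
  simp

/-! ### The basis -/

/-- the basis `1, x, x ^ 2 - 2, x ^ 3, x ^ 4, …` -/
noncomputable def B (k : ℕ) : ℝ[X] := if k = 2 then X ^ 2 - 2 else X ^ k

/-- the eigenvalues of `T` -/
noncomputable def γ (k : ℕ) : ℝ := if k = 0 then 3 else if k = 1 then 5 else if k = 2 then 4 else 0

lemma B_degree (k : ℕ) : (B k).degree = k := by
  unfold B
  split_ifs with h
  · subst h
    compute_degree!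
  · exact degree_X_pow k

lemma admissible : Admissible B := by
  refine ⟨B_degree, 3, fun j => if j = 3 then X ^ 3 else 0,
    fun k => -(k.descFactorial 3 : ℝ), by norm_num, by simp, ?_⟩
  intro k
  have h1 : ∑ j ∈ Icc 1 3, (if j = 3 then (X : ℝ[X]) ^ 3 else 0) * derivative^[j] (B k) =
      X ^ 3 * derivative^[3] (B k) := by
    have : Icc 1 3 = ({1, 2, 3} : Finset ℕ) := by decide
    rw [this]
    simp
  simp only
  rw [h1]
  unfold B
  split_ifs with h
  · subst h
    have : derivative^[3] (X ^ 2 - 2 : ℝ[X]) = 0 := by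
      apply iterate_derivative_eq_zero
      have : (X ^ 2 - 2 : ℝ[X]).natDegree = 2 := by compute_degree!
      omega
    rw [this]
    simp [Nat.descFactorial]
  · rw [iterate_derivative_X_pow_eq_natCast_mul]
    by_cases hk : 3 ≤ k
    · have h2 : (X : ℝ[X]) ^ k = X ^ 3 * X ^ (k - 3) := by
        rw [← pow_add]
        congr 1
        omega
      simp only [map_neg, map_natCast]
      rw [h2]
      ring
    · rw [Nat.descFactorial_eq_zero_iff_lt.2 (by omega)]
      simp

lemma diagonal (k : ℕ) : T (B k) = C (γ k) * B k := by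
  rw [T_apply]
  unfold B γ
  rcases Nat.lt_or_ge k 3 with hk | hk
  · interval_cases k
    · simp [coeff_one]
      exact (map_ofNat C 3).symm
    · simp [coeff_X]
      exact (map_ofNat C 5).symm
    · simp [coeff_X_pow, coeff_ofNat_zero]
      have : (C 2 : ℝ[X]) = 2 := map_ofNat C 2
      have h4 : (C 4 : ℝ[X]) = 4 := map_ofNat C 4
      try rw [this]
      try rw [h4]
      ring
  · rw [if_neg (by omega), if_neg (by omega), if_neg (by omega), if_neg (by omega)]
    simp only [coeff_X_pow]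
    rw [if_neg (by omega), if_neg (by omega), if_neg (by omega)]
    simp

lemma e_zero : e 0 = 1 := by simp [e]

lemma e_one : e 1 = -X := by simp [e]

lemma e_two : e 2 = C (1 / 2) * X ^ 2 := by simp [e]

lemma e_three : e 3 = -(C (1 / 6) * X ^ 3) := by
  unfold e
  rw [← neg_mul, ← C_neg]
  congr 2
  norm_num [Nat.factorial]

lemma Q_two : Q 2 = -(C (3 / 2) * X ^ 2 + 1) := by
  unfold Q
  rw [if_neg (by norm_num), if_neg (by norm_num), show 2 - 1 = 1 by rfl, show 2 - 2 = 0 by rfl,
    e_zero, e_one, e_two]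
  have h1 : (C (3 / 2) : ℝ[X]) = 3 * C (1 / 2) := by
    rw [← map_ofNat C 3, ← C_mul]
    norm_num
  have h2 : (2 : ℝ[X]) * C (1 / 2) = 1 := by
    rw [← map_ofNat C 2, ← C_mul]
    norm_num
  rw [h1]
  linear_combination (3 * X ^ 2) * h2

lemma Q_three : Q 3 = X := by
  unfold Q
  rw [if_neg (by norm_num), if_neg (by norm_num), show 3 - 1 = 2 by rfl, show 3 - 2 = 1 by rfl,
    e_one, e_two, e_three]
  have h1 : (6 : ℝ[X]) * C (1 / 6) = 1 := by
    rw [← map_ofNat C 6, ← C_mul]
    norm_num
  have h2 : (2 : ℝ[X]) * C (1 / 2) = 1 := by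
    rw [← map_ofNat C 2, ← C_mul]
    norm_num
  have h3 : (2 : ℝ[X]) * (C (1 / 2) * 5 - C (1 / 6) * 3 - 2) = 0 := by
    linear_combination 5 * h2 - h1
  have h4 : C (1 / 2) * 5 - C (1 / 6) * 3 - (2 : ℝ[X]) = 0 :=
    (mul_eq_zero.1 h3).resolve_left two_ne_zero
  linear_combination X ^ 3 * h4

lemma Q_coeff (k : ℕ) : (Q (k + 2)).coeff k ≠ 0 := by
  unfold Q e
  rw [if_neg (by omega), if_neg (by omega), show k + 2 - 1 = k + 1 by omega, Nat.add_sub_cancel]
  have h1 : (3 * (C ((-1) ^ (k + 2) / ((k + 2).factorial : ℝ)) * X ^ (k + 2) : ℝ[X])).coeff k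
      = 0 := by
    rw [← map_ofNat C 3, ← mul_assoc, ← C_mul, coeff_C_mul_X_pow, if_neg (by omega)]
  have h2 : (5 * X * (C ((-1) ^ (k + 1) / ((k + 1).factorial : ℝ)) * X ^ (k + 1) : ℝ[X])).coeff k
      = 0 := by
    have : (5 * X * (C ((-1) ^ (k + 1) / ((k + 1).factorial : ℝ)) * X ^ (k + 1) : ℝ[X])) =
        C (5 * ((-1) ^ (k + 1) / ((k + 1).factorial : ℝ))) * X ^ (k + 2) := by
      rw [C_mul, map_ofNat]
      ring
    rw [this, coeff_C_mul_X_pow, if_neg (by omega)]
  have h3 : ((2 * X ^ 2 - 1) * (C ((-1) ^ k / (k.factorial : ℝ)) * X ^ k) : ℝ[X]).coeff k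
      = -((-1) ^ k / (k.factorial : ℝ)) := by
    have : ((2 * X ^ 2 - 1) * (C ((-1) ^ k / (k.factorial : ℝ)) * X ^ k) : ℝ[X]) =
        C (2 * ((-1) ^ k / (k.factorial : ℝ))) * X ^ (k + 2) -
          C ((-1) ^ k / (k.factorial : ℝ)) * X ^ k := by
      rw [C_mul, map_ofNat]
      ring
    rw [this, coeff_sub, coeff_C_mul_X_pow, coeff_C_mul_X_pow, if_neg (by omega), if_pos rfl,
      zero_sub]
  rw [coeff_add, coeff_add, h1, h2, h3, zero_add, zero_add]
  exact neg_ne_zero.2 (div_ne_zero (pow_ne_zero _ (by norm_num))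
    (by exact_mod_cast Nat.factorial_ne_zero k))

/-- Main result: there are an admissible basis `B` and an infinite-order hyperbolicity preserver
`T`, diagonal with respect to `B`, which is not monotone. -/
theorem result : ∃ (B : ℕ → ℝ[X]) (T : ℝ[X] →ₗ[ℝ] ℝ[X]) (Q : ℕ → ℝ[X]) (γ : ℕ → ℝ),
    Admissible B ∧ IsSeries T Q ∧ {k | Q k ≠ 0}.Infinite ∧
    (∀ p, Hyperbolic p → Hyperbolic (T p)) ∧ (∀ k, T (B k) = C (γ k) * B k) ∧
    ¬ IsMonotone Q ∧
    -- more precisely: the range of `T` has dimension at least three, and `Q₂`, `Q₃` are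
    -- nonzero polynomials of degrees `2` and `1`
    γ 0 ≠ 0 ∧ γ 1 ≠ 0 ∧ γ 2 ≠ 0 ∧ (Q 2).degree = 2 ∧ (Q 3).degree = 1 := by
  have h2 : (Q 2).degree = 2 := by
    rw [Q_two, degree_neg]
    compute_degree!
  have h3 : (Q 3).degree = 1 := by
    rw [Q_three, degree_X]
  refine ⟨B, T, Q, γ, admissible, isSeries, ?_, preserves, diagonal, ?_, ?_, ?_, ?_, h2, h3⟩
  · apply Set.infinite_of_injective_forall_mem (f := fun j : ℕ => j + 2)
    · intro a b h
      simpa using h
    · intro j h0
      apply Q_coeff j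
      rw [h0, coeff_zero]
  · intro hmono
    have h4 := hmono 2 (by
      intro h0
      rw [h0, degree_zero] at h2
      exact absurd h2 (by decide))
    rw [h2, h3] at h4
    exact absurd h4 (by decide)
  · simp [γ]
  · simp [γ]
  · simp [γ]

end Pool.Agent.Results.MP_f79668_an.DiagonalNonMonotone
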